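import Pool.Agent.E8helper59.TS.Stm4

/-! Project TS, piece CELL. -/

set_option autoImplicit false
open MeasureTheory Set Filter Topology
open scoped Pointwise ENNReal

namespace Pool.Agent.E8helper64.TS

open Pool.Agent.E8helper59.TS

theorem sum_lt_succ (n : ℕ) (f : Fin (n + 1) → Fin (n + 1) → ℝ) :
    ∑ i, ∑ j, (if i < j then f i j else 0) =
      (∑ i : Fin n, ∑ j : Fin n, if i < j then f i.castSucc j.castSucc else 0) +
        ∑ i : Fin n, f i.castSucc (Fin.last n) := by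
  rw [Fin.sum_univ_castSucc, ← Finset.sum_add_distrib]
  have h0 : ∑ j, (if Fin.last n < j then f (Fin.last n) j else 0) = 0 := by
    apply Finset.sum_eq_zero
    intro j _
    rw [if_neg (not_lt.mpr (Fin.le_last j))]
  rw [h0, add_zero]
  apply Finset.sum_congr rfl
  intro i _
  rw [Fin.sum_univ_castSucc, if_pos (Fin.castSucc_lt_last i)]
  simp only [Fin.castSucc_lt_castSucc_iff]

theorem zon_compact (n : ℕ) (a : Fin n → ℝ × ℝ) : IsCompact (Zon n a) := by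
  have h : Zon n a = (fun x : Fin n → ℝ => ∑ i, x i • a i) ''
      (Set.pi univ fun _ => Icc (0 : ℝ) 1) := by
    ext p
    simp only [Zon, mem_setOf_eq, mem_image, mem_univ_pi, mem_Icc]
    constructor
    · rintro ⟨x, hx, rfl⟩
      exact ⟨x, hx, rfl⟩
    · rintro ⟨x, hx, rfl⟩
      exact ⟨x, hx, rfl⟩
  rw [h]
  apply (isCompact_univ_pi fun _ => isCompact_Icc).image
  fun_prop

/-- the vectors of the zonogon -/
noncomputable def vec (d : ℕ) (p q ℓ : Fin d → ℝ) : Fin (d + 2) → ℝ × ℝ :=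
  Fin.snoc (α := fun _ => ℝ × ℝ) (Fin.snoc (α := fun _ => ℝ × ℝ)
    (fun j => (ℓ j * p j, ℓ j * q j)) ((1 / 2 : ℝ), (1 / 2 : ℝ))) ((1 / 2 : ℝ), (-1 / 2 : ℝ))

theorem vec_cast (d : ℕ) (p q ℓ : Fin d → ℝ) (j : Fin d) :
    vec d p q ℓ j.castSucc.castSucc = (ℓ j * p j, ℓ j * q j) := by
  unfold vec
  rw [Fin.snoc_castSucc, Fin.snoc_castSucc]

theorem vec_one (d : ℕ) (p q ℓ : Fin d → ℝ) :
    vec d p q ℓ (Fin.last d).castSucc = ((1 / 2 : ℝ), (1 / 2 : ℝ)) := by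
  unfold vec
  rw [Fin.snoc_castSucc, Fin.snoc_last]

theorem vec_last (d : ℕ) (p q ℓ : Fin d → ℝ) :
    vec d p q ℓ (Fin.last (d + 1)) = ((1 / 2 : ℝ), (-1 / 2 : ℝ)) := by
  unfold vec
  rw [Fin.snoc_last]

/-- the sum of the areas -/
theorem vec_sum (d : ℕ) (p q ℓ : Fin d → ℝ) (h : Coef d p q) (hℓ : ∀ j, 0 ≤ ℓ j) :
    (∑ i, ∑ j, if i < j then |(vec d p q ℓ i).1 * (vec d p q ℓ j).2 -
      (vec d p q ℓ i).2 * (vec d p q ℓ j).1| else 0) ≤
      1 / 2 + ∑ j, ℓ j + ∑ j, ∑ k, if j < k then ℓ j * ℓ k else 0 := by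
  obtain ⟨hp, hq, hpq⟩ := h
  rw [sum_lt_succ (d + 1) (fun i j => |(vec d p q ℓ i).1 * (vec d p q ℓ j).2 -
      (vec d p q ℓ i).2 * (vec d p q ℓ j).1|),
    sum_lt_succ d (fun i j => |(vec d p q ℓ i.castSucc).1 * (vec d p q ℓ j.castSucc).2 -
      (vec d p q ℓ i.castSucc).2 * (vec d p q ℓ j.castSucc).1|), Fin.sum_univ_castSucc]
  simp only [vec_cast, vec_one, vec_last]
  have h1 : (∑ i, ∑ j, if i < j then |ℓ i * p i * (ℓ j * q j) - ℓ i * q i * (ℓ j * p j)| else 0) ≤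
      ∑ j, ∑ k, if j < k then ℓ j * ℓ k else 0 := by
    apply Finset.sum_le_sum
    intro i _
    apply Finset.sum_le_sum
    intro j _
    split_ifs
    · have e : ℓ i * p i * (ℓ j * q j) - ℓ i * q i * (ℓ j * p j) =
          ℓ i * ℓ j * (p i * q j - p j * q i) := by ring
      rw [e, abs_mul, abs_of_nonneg (mul_nonneg (hℓ i) (hℓ j))]
      exact mul_le_of_le_one_right (mul_nonneg (hℓ i) (hℓ j)) (hpq i j)
    · exact le_rfl
  have h2 : (∑ i, |ℓ i * p i * (1 / 2) - ℓ i * q i * (1 / 2)|) +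
      (∑ i, |ℓ i * p i * (-1 / 2) - ℓ i * q i * (1 / 2)|) ≤ ∑ j, ℓ j := by
    rw [← Finset.sum_add_distrib]
    apply Finset.sum_le_sum
    intro j _
    have e1 : ℓ j * p j * (1 / 2) - ℓ j * q j * (1 / 2) = ℓ j * ((p j - q j) / 2) := by ring
    have e2 : ℓ j * p j * (-1 / 2) - ℓ j * q j * (1 / 2) = ℓ j * (-(p j + q j) / 2) := by ring
    rw [e1, e2, abs_mul, abs_mul, abs_of_nonneg (hℓ j), ← mul_add]
    apply mul_le_of_le_one_right (hℓ j)
    have hpj := abs_le.mp (hp j)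
    have hqj := abs_le.mp (hq j)
    rcases abs_cases ((p j - q j) / 2) with ⟨h3, _⟩ | ⟨h3, _⟩ <;>
    rcases abs_cases (-(p j + q j) / 2) with ⟨h4, _⟩ | ⟨h4, _⟩ <;>
    rw [h3, h4] <;> linarith [hpj.1, hpj.2, hqj.1, hqj.2]
  have h3 : |(1 / 2 : ℝ) * (-1 / 2) - 1 / 2 * (1 / 2)| = 1 / 2 := by
    rw [show (1 / 2 : ℝ) * (-1 / 2) - 1 / 2 * (1 / 2) = -(1 / 2) by norm_num, abs_neg,
      abs_of_pos (by norm_num)]
  rw [h3]
  linarith

/-- the projection to the plane -/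
noncomputable def pr (d : ℕ) (p q : Fin d → ℝ) : (Fin d → ℝ) →ₗ[ℝ] ℝ × ℝ where
  toFun y := (∑ j, p j * y j, ∑ j, q j * y j)
  map_add' x y := by
    ext <;> simp [mul_add, Finset.sum_add_distrib]
  map_smul' c x := by
    ext <;> simp [Finset.mul_sum, mul_left_comm]

theorem pr_mem (d : ℕ) (p q : Fin d → ℝ) (b ℓ t : Fin d → ℝ) (hℓ : ∀ j, 0 ≤ ℓ j)
    (ht : ∀ j, b j ≤ t j ∧ t j ≤ b j + ℓ j) (δ : ℝ × ℝ) (hδ : δ ∈ Dia) :
    pr d p q t + δ + -(pr d p q b + ((-1 / 2 : ℝ), (0 : ℝ))) ∈ Zon (d + 2) (vec d p q ℓ) := by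
  have hδ' : |δ.1| + |δ.2| ≤ 1 / 2 := hδ
  have hx : ∀ j, 0 ≤ (t j - b j) / ℓ j ∧ (t j - b j) / ℓ j ≤ 1 := fun j =>
    ⟨div_nonneg (by linarith [(ht j).1]) (hℓ j),
      div_le_one_of_le₀ (by linarith [(ht j).2]) (hℓ j)⟩
  have hxl : ∀ j, (t j - b j) / ℓ j * ℓ j = t j - b j := by
    intro j
    rcases eq_or_ne (ℓ j) 0 with h | h
    · rw [h, mul_zero]
      have := ht j
      rw [h, add_zero] at this
      linarith [this.1, this.2]
    · rw [div_mul_cancel₀ _ h]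
  have b1 := neg_abs_le δ.1
  have b2 := le_abs_self δ.1
  have b3 := neg_abs_le δ.2
  have b4 := le_abs_self δ.2
  refine ⟨Fin.snoc (α := fun _ => ℝ) (Fin.snoc (α := fun _ => ℝ) (fun j => (t j - b j) / ℓ j)
    (δ.1 + δ.2 + 1 / 2)) (δ.1 - δ.2 + 1 / 2), ?_, ?_⟩
  · intro i
    rcases Fin.eq_castSucc_or_eq_last i with ⟨i, rfl⟩ | rfl
    · rw [Fin.snoc_castSucc]
      rcases Fin.eq_castSucc_or_eq_last i with ⟨i, rfl⟩ | rfl
      · rw [Fin.snoc_castSucc]
        exact hx i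
      · rw [Fin.snoc_last]
        constructor <;> linarith
    · rw [Fin.snoc_last]
      constructor <;> linarith
  · rw [Fin.sum_univ_castSucc, Fin.sum_univ_castSucc]
    simp only [vec_cast, vec_one, vec_last, Fin.snoc_castSucc, Fin.snoc_last]
    have e1 : ∀ c : Fin d → ℝ, ∑ j, (t j - b j) / ℓ j * (ℓ j * c j) =
        ∑ j, c j * t j - ∑ j, c j * b j := by
      intro c
      rw [← Finset.sum_sub_distrib]
      apply Finset.sum_congr rfl
      intro j _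
      rw [← mul_assoc, hxl j]
      ring
    apply Prod.ext
    · simp only [pr, LinearMap.coe_mk, AddHom.coe_mk, Prod.fst_add, Prod.fst_neg, Prod.fst_sum,
        Prod.smul_mk, smul_eq_mul]
      rw [e1 p]
      ring
    · simp only [pr, LinearMap.coe_mk, AddHom.coe_mk, Prod.snd_add, Prod.snd_neg, Prod.snd_sum,
        Prod.smul_mk, smul_eq_mul]
      rw [e1 q]
      ring

theorem t_CELL (h1 : S_DIA) (h2 : S_ZON) : S_CELL := by
  classical
  intro d p q F b ℓ hpq hℓ hF hsep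
  have hnn : 0 ≤ ∑ j, ∑ k, if j < k then ℓ j * ℓ k else 0 := by
    apply Finset.sum_nonneg
    intro j _
    apply Finset.sum_nonneg
    intro k _
    split_ifs
    · exact mul_nonneg (hℓ j) (hℓ k)
    · exact le_rfl
  have hnn2 : 0 ≤ ∑ j, ℓ j := Finset.sum_nonneg fun j _ => hℓ j
  rcases F.eq_empty_or_nonempty with rfl | hne
  · rw [Finset.card_empty, Nat.cast_zero]
    linarith
  set F0 : Finset (ℝ × ℝ) := F.image (pr d p q) with hF0
  have hfst : ∀ t s : Fin d → ℝ, Slab (fun y => ∑ j, p j * y j) F t s →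
      Slab Prod.fst F0 (pr d p q t) (pr d p q s) := by
    rintro t s ⟨c, hc1, hc2, hc3⟩
    refine ⟨c, hc1, hc2, ?_⟩
    intro r hr
    obtain ⟨r', hr', rfl⟩ := Finset.mem_image.mp hr
    exact hc3 r' hr'
  have hsnd : ∀ t s : Fin d → ℝ, Slab (fun y => ∑ j, q j * y j) F t s →
      Slab Prod.snd F0 (pr d p q t) (pr d p q s) := by
    rintro t s ⟨c, hc1, hc2, hc3⟩
    refine ⟨c, hc1, hc2, ?_⟩
    intro r hr
    obtain ⟨r', hr', rfl⟩ := Finset.mem_image.mp hr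
    exact hc3 r' hr'
  have hsep' : ∀ t ∈ F, ∀ s ∈ F, t ≠ s →
      Slab Prod.fst F0 (pr d p q t) (pr d p q s) ∨ Slab Prod.fst F0 (pr d p q s) (pr d p q t) ∨
      Slab Prod.snd F0 (pr d p q t) (pr d p q s) ∨ Slab Prod.snd F0 (pr d p q s) (pr d p q t) := by
    intro t ht s hs hts
    rcases hsep t ht s hs hts with h | h | h | h
    · exact Or.inl (hfst _ _ h)
    · exact Or.inr (Or.inl (hfst _ _ h))
    · exact Or.inr (Or.inr (Or.inl (hsnd _ _ h)))
    · exact Or.inr (Or.inr (Or.inr (hsnd _ _ h)))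
  have hslab_ne : ∀ (g : ℝ × ℝ → ℝ) (u v : ℝ × ℝ), Slab g F0 u v → u ≠ v := by
    rintro g u v ⟨c, hc1, hc2, -⟩ rfl
    linarith
  have hinj : Set.InjOn (pr d p q) (F : Set (Fin d → ℝ)) := by
    intro t ht s hs hts
    by_contra hne'
    rcases hsep' t ht s hs hne' with h | h | h | h
    · exact hslab_ne _ _ _ h hts
    · exact hslab_ne _ _ _ h hts.symm
    · exact hslab_ne _ _ _ h hts
    · exact hslab_ne _ _ _ h hts.symm
  have hcard : F0.card = F.card := Finset.card_image_of_injOn hinj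
  have hd := h1 F0 (hne.image _) (by
    intro t ht s hs hts
    obtain ⟨t', ht', rfl⟩ := Finset.mem_image.mp ht
    obtain ⟨s', hs', rfl⟩ := Finset.mem_image.mp hs
    exact hsep' t' ht' s' hs' (fun h => hts (by rw [h])))
  rw [hcard] at hd
  -- the inclusion
  have hsub : convexHull ℝ (F0 : Set (ℝ × ℝ)) + Dia ⊆
      (fun z => z + -(pr d p q b + ((-1 / 2 : ℝ), (0 : ℝ)))) ⁻¹' Zon (d + 2) (vec d p q ℓ) := by
    rintro z ⟨x, hx, δ, hδ, rfl⟩
    have hx2 : x ∈ pr d p q '' (Icc b (b + ℓ)) := by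
      refine convexHull_min ?_ ((convex_Icc b (b + ℓ)).linear_image (pr d p q)) hx
      intro y hy
      obtain ⟨t, ht, rfl⟩ := Finset.mem_image.mp (Finset.mem_coe.mp hy)
      exact ⟨t, ⟨fun j => (hF t ht j).1, fun j => (hF t ht j).2⟩, rfl⟩
    obtain ⟨t, ht, rfl⟩ := hx2
    exact pr_mem d p q b ℓ t hℓ (fun j => ⟨ht.1 j, ht.2 j⟩) δ hδ
  have hvol : (volume (convexHull ℝ (F0 : Set (ℝ × ℝ)) + Dia)).toReal ≤
      (volume (Zon (d + 2) (vec d p q ℓ))).toReal := by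
    apply ENNReal.toReal_mono (zon_compact _ _).measure_lt_top.ne
    refine (measure_mono hsub).trans ?_
    rw [measure_preimage_add_right]
  have hz := h2 (d + 2) (vec d p q ℓ)
  have hs := vec_sum d p q ℓ hpq hℓ
  linarith

end Pool.Agent.E8helper64.TS
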